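import Mathlib

/-!
# The set-splitting game: player A has no winning strategy on an uncountable set

Move `0` is made by A, move `1` by B, move `2` by A, and so on. Move `n` consists of the set
`S n` taken by the mover (`S 0 = E`; `S (n+1)` is one of the two parts of move `n`) together with
its partition into two disjoint parts `P n`, `Q n`.
-/

namespace Pool.Agent.Results.MP_053b7f_lc.NoWinA

universe u

/-- One move of the game on `E`: the mover takes the set `S` and splits it into `P` and `Q`. -/
structure Move (E : Type u) where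
  /-- the set taken by the mover -/
  S : Set E
  /-- first part of the split -/
  P : Set E
  /-- second part of the split -/
  Q : Set E

/-- Move number `n` of the sequence of moves `m` obeys the rules: `S 0 = E`, the set `S (k+1)` is
one of the two parts of move `k`, and `P n`, `Q n` are disjoint with union `S n`. -/
def LegalAt {E : Type u} (m : ℕ → Move E) (n : ℕ) : Prop :=
  (n = 0 → (m n).S = Set.univ) ∧
  (∀ k, n = k + 1 → (m n).S = (m k).P ∨ (m n).S = (m k).Q) ∧
  Disjoint (m n).P (m n).Q ∧ (m n).P ∪ (m n).Q = (m n).S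

/-- The finite history `[m 0, …, m (n-1)]` seen by the player who makes move `n`. -/
def history {E : Type u} (m : ℕ → Move E) (n : ℕ) : List (Move E) :=
  (List.range n).map m

/-- `σ` is a strategy for A: at an even move number `n`, after legal moves in which A has followed
`σ`, the move given by `σ` is legal. -/
def IsStrategyA {E : Type u} (σ : List (Move E) → Move E) : Prop :=
  ∀ (m : ℕ → Move E) (n : ℕ), Even n → (∀ i < n, LegalAt m i) →
    (∀ i ≤ n, Even i → m i = σ (history m i)) → LegalAt m n

/-- `σ` is a winning strategy for A: it is a strategy, and every legal play in which A follows it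
has `⋂_{n ≥ 1} S n = ∅`. -/
def IsWinningStrategyA {E : Type u} (σ : List (Move E) → Move E) : Prop :=
  IsStrategyA σ ∧
    ∀ m : ℕ → Move E, (∀ n, LegalAt m n) → (∀ n, Even n → m n = σ (history m n)) →
      ⋂ n ≥ 1, (m n).S = ∅

section Proof

variable {E : Type u}

/-- An uncountable type has an uncountable subset whose points are separated by countably many
sets. -/
theorem exists_separated [Uncountable E] :
    ∃ (T : Set E) (X : ℕ → Set E), ¬ T.Countable ∧
      ∀ a ∈ T, ∀ b ∈ T, a ≠ b → ∃ n, (a ∈ X n ∧ b ∉ X n) ∨ (a ∉ X n ∧ b ∈ X n) := by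
  classical
  rcases Function.Embedding.total E (Set ℕ) with ⟨⟨f⟩⟩ | ⟨⟨g⟩⟩
  · refine ⟨Set.univ, fun n => {a | n ∈ f a}, Set.not_countable_univ, ?_⟩
    intro a _ b _ hab
    by_contra h
    push Not at h
    apply hab
    apply f.injective
    ext n
    have := h n
    simp only [Set.mem_ofPred_eq] at this
    tauto
  · refine ⟨Set.range g, fun n => g '' {s | n ∈ s}, ?_, ?_⟩
    · intro h
      have h2 : (Set.univ : Set (Set ℕ)).Countable := by
        have := h.preimage_of_injOn (f := g) g.injective.injOn
        simpa using this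
      have : Uncountable (Set ℕ) := by
        rw [← Cardinal.aleph0_lt_mk_iff]
        simp [Cardinal.aleph0_lt_continuum]
      exact Set.not_countable_univ h2
    · rintro _ ⟨s, rfl⟩ _ ⟨t, rfl⟩ hab
      by_contra h
      push Not at h
      apply hab
      congr 1
      ext n
      have := h n
      simp only [g.injective.mem_set_image, Set.mem_ofPred_eq] at this
      tauto

/-- The part of the last move of `l` selected by `b`. -/
def part (l : List (Move E)) (b : Bool) : Set E :=
  match l.getLast? with
  | none => ∅
  | some x => if b then x.P else x.Q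

/-- B takes the part selected by `b` and splits it along `X j`. -/
def bmove (X : ℕ → Set E) (l : List (Move E)) (b : Bool) (j : ℕ) : Move E :=
  ⟨part l b, part l b ∩ X j, part l b \ X j⟩

/-- The histories of length `n` that arise when B only splits along the sets `X j`. -/
def reach (σ : List (Move E) → Move E) (X : ℕ → Set E) : ℕ → Set (List (Move E))
  | 0 => {[]}
  | n + 1 => (fun l => l ++ [σ l]) '' reach σ X n ∪
      ⋃ b : Bool, ⋃ j : ℕ, (fun l => l ++ [bmove X l b j]) '' reach σ X n

theorem reach_countable (σ : List (Move E) → Move E) (X : ℕ → Set E) (n : ℕ) :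
    (reach σ X n).Countable := by
  induction n with
  | zero => simp [reach]
  | succ n ih =>
    simp only [reach]
    exact (ih.image _).union
      (Set.countable_iUnion fun b => Set.countable_iUnion fun j => ih.image _)

/-- The split along `X j` is proper, and the answer of `σ` to it, if legal, keeps `a`. -/
def Good (σ : List (Move E) → Move E) (X : ℕ → Set E) (l : List (Move E)) (b : Bool) (a : E)
    (j : ℕ) : Prop :=
  (bmove X l b j).P.Nonempty ∧ (bmove X l b j).Q.Nonempty ∧
    (((σ (l ++ [bmove X l b j])).S = (bmove X l b j).P ∨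
      (σ (l ++ [bmove X l b j])).S = (bmove X l b j).Q) → a ∈ (σ (l ++ [bmove X l b j])).S)

/-- The points of `T` that B cannot keep at the position `l`, `b`. -/
def dead (σ : List (Move E) → Move E) (T : Set E) (X : ℕ → Set E) (l : List (Move E))
    (b : Bool) : Set E :=
  {a | a ∈ T ∧ a ∈ part l b ∧ ∀ j, ¬ Good σ X l b a j}

theorem dead_subsingleton (σ : List (Move E) → Move E) (T : Set E) (X : ℕ → Set E)
    (hX : ∀ a ∈ T, ∀ b ∈ T, a ≠ b → ∃ n, (a ∈ X n ∧ b ∉ X n) ∨ (a ∉ X n ∧ b ∈ X n))
    (l : List (Move E)) (b : Bool) : (dead σ T X l b).Subsingleton := by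
  have key : ∀ x ∈ dead σ T X l b, ∀ y ∈ dead σ T X l b, ∀ n, x ∈ X n → y ∉ X n → False := by
    rintro x ⟨-, hx, hx'⟩ y ⟨-, hy, hy'⟩ n hxn hyn
    have hP : x ∈ (bmove X l b n).P := ⟨hx, hxn⟩
    have hQ : y ∈ (bmove X l b n).Q := ⟨hy, hyn⟩
    by_cases h : (σ (l ++ [bmove X l b n])).S = (bmove X l b n).P
    · exact hx' n ⟨⟨x, hP⟩, ⟨y, hQ⟩, fun _ => h ▸ hP⟩
    · exact hy' n ⟨⟨x, hP⟩, ⟨y, hQ⟩, fun h' => (h'.resolve_left h) ▸ hQ⟩
  intro x hx y hy
  by_contra hxy
  obtain ⟨n, h | h⟩ := hX x hx.1 y hy.1 hxy
  · exact key x hx y hy n h.1 h.2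
  · exact key y hy x hx n h.2 h.1

open Classical in
/-- B's choice of a part: the one that contains `a`. -/
noncomputable def pick (a : E) (l : List (Move E)) : Bool :=
  decide (a ∈ part l true)

open Classical in
/-- B's choice of a split. -/
noncomputable def cut (σ : List (Move E) → Move E) (X : ℕ → Set E) (a : E)
    (l : List (Move E)) : ℕ :=
  if h : ∃ j, Good σ X l (pick a l) a j then h.choose else 0

/-- The next move after the history `l` of length `n`. -/
noncomputable def step (σ : List (Move E) → Move E) (X : ℕ → Set E) (a : E) (n : ℕ)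
    (l : List (Move E)) : Move E :=
  if Even n then σ l else bmove X l (pick a l) (cut σ X a l)

/-- The histories of the play in which B keeps the point `a`. -/
noncomputable def hist (σ : List (Move E) → Move E) (X : ℕ → Set E) (a : E) :
    ℕ → List (Move E)
  | 0 => []
  | n + 1 => hist σ X a n ++ [step σ X a n (hist σ X a n)]

/-- The play in which B keeps the point `a`. -/
noncomputable def play (σ : List (Move E) → Move E) (X : ℕ → Set E) (a : E) (n : ℕ) : Move E :=
  step σ X a n (hist σ X a n)

theorem history_play (σ : List (Move E) → Move E) (X : ℕ → Set E) (a : E) (n : ℕ) :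
    history (play σ X a) n = hist σ X a n := by
  induction n with
  | zero => rfl
  | succ n ih =>
    unfold history at ih ⊢
    rw [List.range_succ, List.map_append, ih]
    rfl

theorem hist_mem_reach (σ : List (Move E) → Move E) (X : ℕ → Set E) (a : E) (n : ℕ) :
    hist σ X a n ∈ reach σ X n := by
  induction n with
  | zero => simp [hist, reach]
  | succ n ih =>
    simp only [hist, reach, step]
    split_ifs with h
    · exact Or.inl ⟨_, ih, rfl⟩
    · exact Or.inr (Set.mem_iUnion.2 ⟨_, Set.mem_iUnion.2 ⟨_, _, ih, rfl⟩⟩)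

theorem part_hist_succ (σ : List (Move E) → Move E) (X : ℕ → Set E) (a : E) (n : ℕ) (b : Bool) :
    part (hist σ X a (n + 1)) b = if b then (play σ X a n).P else (play σ X a n).Q := by
  simp [part, hist, play]

theorem play_even (σ : List (Move E) → Move E) (X : ℕ → Set E) (a : E) {n : ℕ} (h : Even n) :
    play σ X a n = σ (history (play σ X a) n) := by
  rw [history_play, play, step, if_pos h]

theorem play_odd (σ : List (Move E) → Move E) (X : ℕ → Set E) (a : E) {n : ℕ} (h : ¬ Even n) :
    play σ X a n =
      bmove X (hist σ X a n) (pick a (hist σ X a n)) (cut σ X a (hist σ X a n)) := by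
  rw [play, step, if_neg h]

theorem play_legal (σ : List (Move E) → Move E) (hσ : IsStrategyA σ) (X : ℕ → Set E) (a : E)
    (n : ℕ) : LegalAt (play σ X a) n := by
  induction n using Nat.strong_induction_on with
  | _ n ih =>
    by_cases h : Even n
    · exact hσ _ n h ih fun i _ hi => play_even σ X a hi
    · refine ⟨fun h0 => absurd (h0 ▸ Even.zero) h, ?_, ?_, ?_⟩
      · rintro k rfl
        rw [play_odd σ X a h]
        simp only [bmove, part_hist_succ]
        split_ifs
        · exact Or.inl rfl
        · exact Or.inr rfl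
      · rw [play_odd σ X a h]
        exact Set.disjoint_left.2 fun x hx hx' => hx'.2 hx.2
      · rw [play_odd σ X a h]
        exact Set.inter_union_sdiff _ _

/-- Against any strategy of A on an uncountable set, B has a legal play, using only splits into
two nonempty parts, in which some point survives. -/
theorem exists_play [Uncountable E] (σ : List (Move E) → Move E) (hσ : IsStrategyA σ) :
    ∃ m : ℕ → Move E, (∀ n, LegalAt m n) ∧ (∀ n, Even n → m n = σ (history m n)) ∧
      (∀ n, ¬ Even n → (m n).P.Nonempty ∧ (m n).Q.Nonempty) ∧ ∃ a, ∀ n, a ∈ (m n).S := by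
  classical
  obtain ⟨T, X, hT, hX⟩ := exists_separated (E := E)
  have hc : (⋃ n, ⋃ l ∈ reach σ X n, ⋃ b : Bool, dead σ T X l b).Countable :=
    Set.countable_iUnion fun n => (reach_countable σ X n).biUnion fun l _ =>
      Set.countable_iUnion fun b => (dead_subsingleton σ T X hX l b).countable
  obtain ⟨a, haT, ha⟩ : ∃ a ∈ T, a ∉ ⋃ n, ⋃ l ∈ reach σ X n, ⋃ b : Bool, dead σ T X l b := by
    by_contra h
    push Not at h
    exact hT (hc.mono h)
  have hdead : ∀ n b, a ∉ dead σ T X (hist σ X a n) b := fun n b h =>
    ha (Set.mem_iUnion.2 ⟨n, Set.mem_iUnion₂.2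
      ⟨_, hist_mem_reach σ X a n, Set.mem_iUnion.2 ⟨b, h⟩⟩⟩)
  have hleg := play_legal σ hσ X a
  -- after a move that keeps `a`, the part picked by B contains `a`
  have hpick : ∀ n, a ∈ (play σ X a n).S →
      a ∈ part (hist σ X a (n + 1)) (pick a (hist σ X a (n + 1))) := by
    intro n hn
    rw [← (hleg n).2.2.2] at hn
    by_cases h : a ∈ part (hist σ X a (n + 1)) true
    · have : pick a (hist σ X a (n + 1)) = true := by simp [pick, h]
      rw [this]; exact h
    · have : pick a (hist σ X a (n + 1)) = false := by simp [pick, h]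
      rw [this, part_hist_succ]
      rw [part_hist_succ] at h
      simpa using hn.resolve_left (by simpa using h)
  have hgood : ∀ n, a ∈ part (hist σ X a n) (pick a (hist σ X a n)) →
      Good σ X (hist σ X a n) (pick a (hist σ X a n)) a (cut σ X a (hist σ X a n)) := by
    intro n hn
    have hex : ∃ j, Good σ X (hist σ X a n) (pick a (hist σ X a n)) a j := by
      by_contra h
      push Not at h
      exact hdead n _ ⟨haT, hn, h⟩
    rw [cut, dif_pos hex]
    exact hex.choose_spec
  have heven : ∀ k, a ∈ (play σ X a (2 * k)).S := by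
    intro k
    induction k with
    | zero => rw [(hleg (2 * 0)).1 rfl]; trivial
    | succ k ih =>
      have hodd : ¬ Even (2 * k + 1) := by simp
      have hev : Even (2 * k + 1 + 1) := ⟨k + 1, by ring⟩
      have h1 := (hgood _ (hpick _ ih)).2.2
      have h2 : play σ X a (2 * k + 1 + 1) =
          σ (hist σ X a (2 * k + 1) ++ [play σ X a (2 * k + 1)]) := by
        rw [play, step, if_pos hev]; rfl
      rw [← play_odd σ X a hodd, ← h2] at h1
      exact h1 ((hleg (2 * k + 1 + 1)).2.1 _ rfl)
  refine ⟨play σ X a, hleg, fun n hn => play_even σ X a hn, ?_, a, ?_⟩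
  · intro n hn
    obtain ⟨k, rfl⟩ := Nat.not_even_iff_odd.1 hn
    have h1 := hgood _ (hpick _ (heven k))
    rw [play_odd σ X a hn]
    exact ⟨h1.1, h1.2.1⟩
  · intro n
    rcases Nat.even_or_odd' n with ⟨k, rfl | rfl⟩
    · exact heven k
    · rw [play_odd σ X a (by simp)]
      exact hpick _ (heven k)

/-- Sanity check of the definitions (the known case): on a countable set A does have a winning
strategy. -/
theorem countable_case [Countable E] :
    ∃ σ : List (Move E) → Move E, IsWinningStrategyA σ := by
  classical
  obtain ⟨f, hf⟩ := Countable.exists_injective_nat E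
  let S : List (Move E) → Set E := fun l =>
    match l.getLast? with
    | none => Set.univ
    | some x => if ∃ a ∈ x.P, 2 * f a + 2 = l.length then x.Q else x.P
  have hS : ∀ (m : ℕ → Move E) (k : ℕ), S (history m (k + 1)) =
      if ∃ a ∈ (m k).P, 2 * f a + 2 = k + 1 then (m k).Q else (m k).P := by
    intro m k
    simp [S, history, List.range_succ]
  refine ⟨fun l => ⟨S l, S l, ∅⟩, ?_, ?_⟩
  · intro m n hn _ hm
    have h := hm n le_rfl hn
    refine ⟨?_, ?_, ?_, ?_⟩
    · rintro rfl
      rw [h]; rfl
    · rintro k rfl
      rw [h]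
      simp only [hS]
      split_ifs
      · exact Or.inr rfl
      · exact Or.inl rfl
    · rw [h]; simp
    · rw [h]; simp
  · intro m hl hm
    refine Set.eq_empty_of_forall_notMem fun a ha => ?_
    have h1 : a ∈ (m (2 * f a + 1 + 1)).S := Set.mem_iInter₂.1 ha _ (by omega)
    rw [hm _ ⟨f a + 1, by ring⟩] at h1
    simp only [hS] at h1
    split_ifs at h1 with h
    · obtain ⟨b, hb, hb'⟩ := h
      have : b = a := hf (by omega)
      exact Set.disjoint_left.1 (hl (2 * f a + 1)).2.2.1 (this ▸ hb) h1
    · exact h ⟨a, h1, rfl⟩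

end Proof

/-- For every uncountable set `E`, player A has no winning strategy in the game `G(E)`. -/
theorem result (E : Type u) [Uncountable E] :
    ¬ ∃ σ : List (Move E) → Move E, IsWinningStrategyA σ := by
  rintro ⟨σ, hσ, hw⟩
  obtain ⟨m, h1, h2, -, a, ha⟩ := exists_play σ hσ
  have : a ∈ ⋂ n ≥ 1, (m n).S := Set.mem_iInter₂.2 fun n _ => ha n
  rw [hw m h1 h2] at this
  exact this

end Pool.Agent.Results.MP_053b7f_lc.NoWinA
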